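import Pool.Agent.W254.PA.Transfer

/-!
# Singular matrices with one column in a given space
-/

set_option autoImplicit false

namespace Pool.Agent.Q244.OC

open Module Finset
open Pool.Agent.W254.PA (Hyp)

variable {k E : Type*} [Field k] [Field E] [Algebra k E]

/-- The relations with coefficients in `Lf` between the elements `v i`. -/
def rel {n : ℕ} (v : Fin n → E) (Lf : Submodule k E) : Submodule k (Fin n → E) where
  carrier := {a | (∀ i, a i ∈ Lf) ∧ ∑ i, v i * a i = 0}
  add_mem' := by
    rintro a b ⟨h1, h2⟩ ⟨h3, h4⟩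
    refine ⟨fun i => Submodule.add_mem _ (h1 i) (h3 i), ?_⟩
    simp only [Pi.add_apply, mul_add, Finset.sum_add_distrib, h2, h4, add_zero]
  zero_mem' := ⟨fun i => Submodule.zero_mem _, by simp⟩
  smul_mem' := by
    rintro c a ⟨h1, h2⟩
    refine ⟨fun i => Submodule.smul_mem _ _ (h1 i), ?_⟩
    simp only [Pi.smul_apply, mul_smul_comm, ← Finset.smul_sum, h2, smul_zero]

theorem rank_rel {Lf : Submodule k E} (hyp : Hyp Lf) {n : ℕ} {v : Fin n → E}
    (hv : LinearIndependent k v) : Module.rank k (rel v Lf) ≤ ((n * (n - 1) : ℕ) : Cardinal) := by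
  refine rank_le fun s hs => ?_
  classical
  let e := s.equivFin
  have h1 : LinearIndependent k (fun j : Fin s.card =>
      (((e.symm j : rel v Lf)) : Fin n → E)) := by
    have h2 : LinearIndependent k (fun i : s => ((i : rel v Lf) : Fin n → E)) :=
      hs.map' (rel v Lf).subtype (Submodule.ker_subtype _)
    exact h2.comp _ e.symm.injective
  exact hyp n s.card v (fun i j => ((e.symm j : rel v Lf) : Fin n → E) i) hv
    (fun i j => (e.symm j : rel v Lf).2.1 i) (fun j => (e.symm j : rel v Lf).2.2) h1

/-- The trivial relations. -/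
def triv {n : ℕ} (v : Fin n → E) : ({q : Fin n × Fin n // q.1 < q.2} → k) →ₗ[k] (Fin n → E) where
  toFun c := fun i => ∑ q : {q : Fin n × Fin n // q.1 < q.2}, c q •
    ((if q.1.1 = i then v q.1.2 else 0) - (if q.1.2 = i then v q.1.1 else 0))
  map_add' c d := by
    funext i
    simp only [Pi.add_apply, add_smul, Finset.sum_add_distrib]
  map_smul' c d := by
    funext i
    simp only [Pi.smul_apply, smul_eq_mul, mul_smul, RingHom.id_apply, Finset.smul_sum]

theorem triv_injective {n : ℕ} {v : Fin n → E} (hv : LinearIndependent k v) :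
    Function.Injective (triv (k := k) v) := by
  classical
  rw [← LinearMap.ker_eq_bot, LinearMap.ker_eq_bot']
  intro c hc
  funext q
  obtain ⟨⟨i, j⟩, hij⟩ := q
  have h1 : (triv v c) i = 0 := by rw [hc]; rfl
  -- coefficient of `v j` in the `i`-th coordinate
  have h2 : (triv v c) i = ∑ m : Fin n, (if h : i < m then c ⟨(i, m), h⟩ else
      if h : m < i then -c ⟨(m, i), h⟩ else 0) • v m := by
    show ∑ q : {q : Fin n × Fin n // q.1 < q.2}, c q •
      ((if q.1.1 = i then v q.1.2 else 0) - (if q.1.2 = i then v q.1.1 else 0)) = _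
    simp only [smul_sub, Finset.sum_sub_distrib]
    have e1 : ∑ q : {q : Fin n × Fin n // q.1 < q.2}, c q • (if q.1.1 = i then v q.1.2 else 0) =
        ∑ m : Fin n, (if h : i < m then c ⟨(i, m), h⟩ else 0) • v m := by
      rw [← Finset.sum_filter_add_sum_filter_not (Finset.univ :
        Finset {q : Fin n × Fin n // q.1 < q.2}) (fun q => q.1.1 = i)]
      rw [Finset.sum_eq_zero (s := Finset.univ.filter fun q : {q : Fin n × Fin n // q.1 < q.2} =>
        ¬ q.1.1 = i) (by
          intro q hq
          rw [if_neg (Finset.mem_filter.1 hq).2, smul_zero]), add_zero]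
      rw [← Finset.sum_filter_add_sum_filter_not (Finset.univ : Finset (Fin n)) (fun m => i < m)]
      rw [Finset.sum_eq_zero (s := Finset.univ.filter fun m : Fin n => ¬ i < m) (by
          intro m hm
          rw [dif_neg (Finset.mem_filter.1 hm).2, zero_smul]), add_zero]
      refine Finset.sum_bij (fun q _ => q.1.2) ?_ ?_ ?_ ?_
      · intro q hq
        rw [Finset.mem_filter] at hq ⊢
        exact ⟨Finset.mem_univ _, hq.2 ▸ q.2⟩
      · intro a ha b hb hab
        rw [Finset.mem_filter] at ha hb
        exact Subtype.ext (Prod.ext (ha.2.trans hb.2.symm) hab)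
      · intro m hm
        rw [Finset.mem_filter] at hm
        exact ⟨⟨(i, m), hm.2⟩, Finset.mem_filter.2 ⟨Finset.mem_univ _, rfl⟩, rfl⟩
      · rintro ⟨⟨a, b⟩, hab⟩ hq
        rw [Finset.mem_filter] at hq
        have : a = i := hq.2
        subst this
        rw [if_pos rfl, dif_pos hab]
    have e2 : ∑ q : {q : Fin n × Fin n // q.1 < q.2}, c q • (if q.1.2 = i then v q.1.1 else 0) =
        ∑ m : Fin n, (if h : m < i then c ⟨(m, i), h⟩ else 0) • v m := by
      rw [← Finset.sum_filter_add_sum_filter_not (Finset.univ :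
        Finset {q : Fin n × Fin n // q.1 < q.2}) (fun q => q.1.2 = i)]
      rw [Finset.sum_eq_zero (s := Finset.univ.filter fun q : {q : Fin n × Fin n // q.1 < q.2} =>
        ¬ q.1.2 = i) (by
          intro q hq
          rw [if_neg (Finset.mem_filter.1 hq).2, smul_zero]), add_zero]
      rw [← Finset.sum_filter_add_sum_filter_not (Finset.univ : Finset (Fin n)) (fun m => m < i)]
      rw [Finset.sum_eq_zero (s := Finset.univ.filter fun m : Fin n => ¬ m < i) (by
          intro m hm
          rw [dif_neg (Finset.mem_filter.1 hm).2, zero_smul]), add_zero]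
      refine Finset.sum_bij (fun q _ => q.1.1) ?_ ?_ ?_ ?_
      · intro q hq
        rw [Finset.mem_filter] at hq ⊢
        exact ⟨Finset.mem_univ _, hq.2 ▸ q.2⟩
      · intro a ha b hb hab
        rw [Finset.mem_filter] at ha hb
        exact Subtype.ext (Prod.ext hab (ha.2.trans hb.2.symm))
      · intro m hm
        rw [Finset.mem_filter] at hm
        exact ⟨⟨(m, i), hm.2⟩, Finset.mem_filter.2 ⟨Finset.mem_univ _, rfl⟩, rfl⟩
      · rintro ⟨⟨a, b⟩, hab⟩ hq
        rw [Finset.mem_filter] at hq
        have : b = i := hq.2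
        subst this
        rw [if_pos rfl, dif_pos hab]
    rw [e1, e2, ← Finset.sum_sub_distrib]
    refine Finset.sum_congr rfl fun m _ => ?_
    rw [← sub_smul]
    congr 1
    by_cases h3 : i < m
    · rw [dif_pos h3, dif_pos h3, dif_neg (not_lt_of_gt h3), sub_zero]
    · rw [dif_neg h3, dif_neg h3]
      by_cases h4 : m < i
      · rw [dif_pos h4, dif_pos h4, zero_sub]
      · rw [dif_neg h4, dif_neg h4, sub_zero]
  rw [h1] at h2
  have h5 := (Fintype.linearIndependent_iff.1 hv) _ h2.symm j
  rw [dif_pos hij] at h5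
  exact h5

theorem triv_mem {Lf : Submodule k E} {n : ℕ} {v : Fin n → E} (hvL : ∀ i, v i ∈ Lf)
    (c : {q : Fin n × Fin n // q.1 < q.2} → k) : triv v c ∈ rel v Lf := by
  classical
  refine ⟨fun i => ?_, ?_⟩
  · refine Submodule.sum_mem _ fun q _ => Submodule.smul_mem _ _ (Submodule.sub_mem _ ?_ ?_)
    · split_ifs
      · exact hvL _
      · exact Submodule.zero_mem _
    · split_ifs
      · exact hvL _
      · exact Submodule.zero_mem _
  · show ∑ i, v i * ∑ q : {q : Fin n × Fin n // q.1 < q.2}, c q •
      ((if q.1.1 = i then v q.1.2 else 0) - (if q.1.2 = i then v q.1.1 else 0)) = 0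
    simp only [Finset.mul_sum]
    rw [Finset.sum_comm]
    refine Finset.sum_eq_zero fun q _ => ?_
    simp only [mul_smul_comm, ← Finset.smul_sum, mul_sub, Finset.sum_sub_distrib, mul_ite, mul_zero]
    rw [Finset.sum_ite_eq Finset.univ q.1.1 (fun i => v i * v q.1.2),
      Finset.sum_ite_eq Finset.univ q.1.2 (fun i => v i * v q.1.1), if_pos (Finset.mem_univ _),
      if_pos (Finset.mem_univ _), mul_comm, sub_self, smul_zero]

theorem triv_coord {V : Submodule k E} {n : ℕ} {v : Fin n → E} (hvV : ∀ i, v i ∈ V)
    (c : {q : Fin n × Fin n // q.1 < q.2} → k) (i : Fin n) : triv v c i ∈ V := by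
  classical
  refine Submodule.sum_mem _ fun q _ => Submodule.smul_mem _ _ (Submodule.sub_mem _ ?_ ?_)
  · split_ifs
    · exact hvV _
    · exact Submodule.zero_mem _
  · split_ifs
    · exact hvV _
    · exact Submodule.zero_mem _

theorem card_pairs (n : ℕ) : Fintype.card {q : Fin n × Fin n // q.1 < q.2} = n * (n - 1) / 2 := by
  classical
  have h1 : Fintype.card {q : Fin n × Fin n // q.1 < q.2} =
      Fintype.card {q : Fin n × Fin n // q.2 < q.1} :=
    Fintype.card_congr ((Equiv.prodComm (Fin n) (Fin n)).subtypeEquiv fun q => Iff.rfl)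
  have h2 : Fintype.card {q : Fin n × Fin n // q.1 = q.2} = n := by
    have e : {q : Fin n × Fin n // q.1 = q.2} ≃ Fin n :=
      { toFun := fun q => q.1.1
        invFun := fun i => ⟨(i, i), rfl⟩
        left_inv := fun q => Subtype.ext (Prod.ext rfl q.2)
        right_inv := fun i => rfl }
    rw [Fintype.card_congr e, Fintype.card_fin]
  have h3 : Fintype.card {q : Fin n × Fin n // q.1 < q.2} +
      Fintype.card {q : Fin n × Fin n // q.2 < q.1} +
      Fintype.card {q : Fin n × Fin n // q.1 = q.2} = n * n := by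
    rw [Fintype.card_subtype, Fintype.card_subtype, Fintype.card_subtype,
      ← Finset.card_union_of_disjoint, ← Finset.card_union_of_disjoint]
    · have : (Finset.univ.filter fun q : Fin n × Fin n => q.1 < q.2) ∪
          (Finset.univ.filter fun q : Fin n × Fin n => q.2 < q.1) ∪
          (Finset.univ.filter fun q : Fin n × Fin n => q.1 = q.2) = Finset.univ := by
        ext q
        simp only [Finset.mem_union, Finset.mem_filter, Finset.mem_univ, true_and, iff_true]
        rcases lt_trichotomy q.1 q.2 with h | h | h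
        · exact Or.inl (Or.inl h)
        · exact Or.inr h
        · exact Or.inl (Or.inr h)
      rw [this, Finset.card_univ, Fintype.card_prod, Fintype.card_fin]
    · rw [Finset.disjoint_left]
      intro q h4 h5
      simp only [Finset.mem_union, Finset.mem_filter, Finset.mem_univ, true_and] at h4 h5
      rcases h4 with h4 | h4
      · exact absurd h5 h4.ne
      · exact absurd h5 h4.ne'
    · rw [Finset.disjoint_left]
      intro q h4 h5
      simp only [Finset.mem_filter, Finset.mem_univ, true_and] at h4 h5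
      exact absurd h4 (not_lt_of_gt h5)
  rw [← h1, h2] at h3
  rcases n with _ | n
  · simp at h3
    simp [h3]
  · have h4 : (n + 1) * (n + 1 - 1) = (n + 1) * (n + 1) - (n + 1) := by
      rw [Nat.add_sub_cancel]
      have : (n + 1) * (n + 1) = (n + 1) * n + (n + 1) := by ring
      omega
    rw [h4]
    omega

/-- **Main theorem.** -/
theorem one_column {Lf : Submodule k E} (hyp : Hyp Lf) (V : Submodule k E)
    [FiniteDimensional k V] (hV : V ≤ Lf) : ∃ V' : Submodule k E, V ≤ V' ∧ V' ≤ Lf ∧
      FiniteDimensional k V' ∧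
      finrank k V' ≤ finrank k V + finrank k V * (finrank k V * (finrank k V - 1) / 2) ∧
      ∀ x ∈ V, ∀ y ∈ V, ∀ z ∈ Lf, ∀ w ∈ Lf, x * w = y * z →
        (∀ a b : k, a • x + b • y = 0 → a = 0 ∧ b = 0) → z ∈ V' ∧ w ∈ V' := by
  classical
  set n := finrank k V with hn
  let bV : Basis (Fin n) k V := Module.finBasis k V
  set v : Fin n → E := fun i => (bV i : E) with hv
  have hvli : LinearIndependent k v :=
    bV.linearIndependent.map' V.subtype (Submodule.ker_subtype _)
  have hvV : ∀ i, v i ∈ V := fun i => (bV i).2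
  have hrk := rank_rel hyp hvli
  have hfinA : FiniteDimensional k (rel v Lf) :=
    Module.rank_lt_aleph0_iff.1 (lt_of_le_of_lt hrk (Cardinal.natCast_lt_aleph0))
  have hA : finrank k (rel v Lf) ≤ n * (n - 1) := by
    have h1 := Module.finrank_eq_rank k (rel v Lf)
    rw [← h1] at hrk
    exact_mod_cast hrk
  -- the trivial relations
  let τ : ({q : Fin n × Fin n // q.1 < q.2} → k) →ₗ[k] rel v Lf :=
    (triv v).codRestrict (rel v Lf) (fun c => triv_mem (fun i => hV (hvV i)) c)
  have hτ : Function.Injective τ := by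
    intro a b hab
    exact triv_injective hvli (congrArg (fun z : rel v Lf => (z : Fin n → E)) hab)
  obtain ⟨A', hA'⟩ := Submodule.exists_isCompl (LinearMap.range τ)
  have hdim : finrank k A' ≤ n * (n - 1) / 2 := by
    have h1 := Submodule.finrank_add_eq_of_isCompl hA'
    rw [LinearMap.finrank_range_of_inj hτ, Module.finrank_fintype_fun_eq_card, card_pairs] at h1
    have h2 : n * (n - 1) % 2 = 0 := by
      rw [← Nat.even_iff]
      exact Nat.even_mul_pred_self n
    omega
  -- the space
  let Ψ : (Fin n → A') →ₗ[k] E := ∑ i, (LinearMap.proj i : (Fin n → E) →ₗ[k] E) ∘ₗ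
    (rel v Lf).subtype ∘ₗ A'.subtype ∘ₗ (LinearMap.proj i : (Fin n → A') →ₗ[k] A')
  have hΨ : ∀ f : Fin n → A', Ψ f = ∑ i, ((f i : rel v Lf) : Fin n → E) i := by
    intro f
    simp only [Ψ, LinearMap.sum_apply, LinearMap.comp_apply, LinearMap.proj_apply,
      Submodule.subtype_apply]
  have hcoord : ∀ a ∈ rel v Lf, ∀ i, a i ∈ V ⊔ LinearMap.range Ψ := by
    intro a ha i
    have h1 : (⟨a, ha⟩ : rel v Lf) ∈ LinearMap.range τ ⊔ A' := by
      rw [hA'.sup_eq_top]
      exact Submodule.mem_top
    obtain ⟨t, ht, a', ha', hta⟩ := Submodule.mem_sup.1 h1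
    obtain ⟨c, rfl⟩ := ht
    have h2 : a i = triv v c i + (a' : Fin n → E) i := by
      have := congrArg (fun z : rel v Lf => (z : Fin n → E) i) hta
      exact this.symm
    rw [h2]
    refine Submodule.add_mem_sup (triv_coord hvV c i) ⟨Pi.single i ⟨a', ha'⟩, ?_⟩
    rw [hΨ, Finset.sum_eq_single i]
    · rw [Pi.single_eq_same]
    · intro j _ hj
      rw [Pi.single_eq_of_ne hj]
      rfl
    · intro h
      exact absurd (Finset.mem_univ i) h
  refine ⟨V ⊔ LinearMap.range Ψ, le_sup_left, sup_le hV ?_, inferInstance, ?_, ?_⟩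
  · rintro _ ⟨f, rfl⟩
    rw [hΨ]
    exact Submodule.sum_mem _ fun i _ => (f i : rel v Lf).2.1 i
  · refine (Submodule.finrank_add_le_finrank_add_finrank _ _).trans ?_
    refine Nat.add_le_add_left ?_ _
    refine (LinearMap.finrank_range_le Ψ).trans ?_
    rw [Module.finrank_pi_fintype, Finset.sum_const, Finset.card_univ, Fintype.card_fin,
      smul_eq_mul]
    exact Nat.mul_le_mul_left _ hdim
  · intro x hx y hy z hz w hw hxy hli
    -- coordinates
    let α : Fin n → k := fun i => bV.repr ⟨x, hx⟩ i
    let β : Fin n → k := fun i => bV.repr ⟨y, hy⟩ i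
    have hα : x = ∑ i, α i • v i := by
      have := congrArg (fun z : V => (z : E)) (bV.sum_repr ⟨x, hx⟩)
      simp only at this
      rw [← this]
      push_cast
      rfl
    have hβ : y = ∑ i, β i • v i := by
      have := congrArg (fun z : V => (z : E)) (bV.sum_repr ⟨y, hy⟩)
      simp only at this
      rw [← this]
      push_cast
      rfl
    have hrel : (fun i => α i • w - β i • z) ∈ rel v Lf := by
      refine ⟨fun i => Submodule.sub_mem _ (Submodule.smul_mem _ _ hw)
        (Submodule.smul_mem _ _ hz), ?_⟩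
      have h1 : ∀ i, v i * (α i • w - β i • z) = (α i • v i) * w - (β i • v i) * z := by
        intro i
        rw [mul_sub, mul_smul_comm, mul_smul_comm, smul_mul_assoc, smul_mul_assoc]
      rw [Finset.sum_congr rfl (fun i _ => h1 i), Finset.sum_sub_distrib, ← Finset.sum_mul,
        ← Finset.sum_mul, ← hα, ← hβ, hxy, sub_self]
    have hin := hcoord _ hrel
    -- a nonzero minor
    obtain ⟨i, j, hij⟩ : ∃ i j, α i * β j - α j * β i ≠ 0 := by
      by_contra hcon
      push Not at hcon
      have h1 : ∀ j, (β j) • x + (-(α j)) • y = 0 := by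
        intro j
        rw [hα, hβ, Finset.smul_sum, Finset.smul_sum, ← Finset.sum_add_distrib]
        refine Finset.sum_eq_zero fun i _ => ?_
        rw [smul_smul, smul_smul, ← add_smul]
        have := hcon i j
        rw [show β j * α i + -α j * β i = α i * β j - α j * β i by ring, this, zero_smul]
      have h2 : ∀ j, β j = 0 ∧ α j = 0 := fun j =>
        ⟨(hli _ _ (h1 j)).1, neg_eq_zero.1 (hli _ _ (h1 j)).2⟩
      have h3 : x = 0 := by
        rw [hα]
        refine Finset.sum_eq_zero fun i _ => ?_
        rw [(h2 i).2, zero_smul]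
      have := (hli 1 0 (by rw [h3]; simp)).1
      exact one_ne_zero this
    have hi := hin i
    have hj := hin j
    constructor
    · -- `z`
      have h1 : (α i * β j - α j * β i) • z ∈ V ⊔ LinearMap.range Ψ := by
        have h2 := Submodule.sub_mem _ (Submodule.smul_mem _ (α j) hi)
          (Submodule.smul_mem _ (α i) hj)
        convert h2 using 1
        simp only [smul_sub, smul_smul, sub_smul]
        rw [mul_comm (α j) (α i)]
        abel
      have h2 := Submodule.smul_mem _ (α i * β j - α j * β i)⁻¹ h1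
      rwa [smul_smul, inv_mul_cancel₀ hij, one_smul] at h2
    · have h1 : (α i * β j - α j * β i) • w ∈ V ⊔ LinearMap.range Ψ := by
        have h2 := Submodule.sub_mem _ (Submodule.smul_mem _ (β j) hi)
          (Submodule.smul_mem _ (β i) hj)
        convert h2 using 1
        simp only [smul_sub, smul_smul, sub_smul]
        rw [mul_comm (β j) (β i), mul_comm (β j) (α i), mul_comm (β i) (α j)]
        abel
      have h2 := Submodule.smul_mem _ (α i * β j - α j * β i)⁻¹ h1
      rwa [smul_smul, inv_mul_cancel₀ hij, one_smul] at h2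

end Pool.Agent.Q244.OC
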