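import Pool.Agent.Q244.OC.Abs

/-!
# Singular matrices with all columns but one in a given space
-/

set_option autoImplicit false

namespace Pool.Agent.Q244.OC

open Module Finset
open Pool.Agent.W254.PA (Hyp)

variable {k E : Type*} [Field k] [Field E] [Algebra k E]

/-- Linear relations with coefficients in a finite dimensional space. -/
theorem lin_rel {Lf : Submodule k E} (hyp : Hyp Lf) (S : Submodule k E)
    [FiniteDimensional k S] : ∃ V' : Submodule k E, V' ≤ Lf ∧ FiniteDimensional k V' ∧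
      finrank k V' ≤ finrank k S * (finrank k S * (finrank k S - 1)) ∧
      ∀ (n : ℕ) (C z : Fin n → E) (hC : ∀ i, C i ∈ S), (∀ i, z i ∈ Lf) → ∑ i, C i * z i = 0 →
        ∀ j, ∑ i, (Module.finBasis k S).repr ⟨C i, hC i⟩ j • z i ∈ V' := by
  classical
  set d := finrank k S with hd
  let s : Fin d → E := fun i => (Module.finBasis k S i : E)
  have hs : LinearIndependent k s :=
    (Module.finBasis k S).linearIndependent.map' S.subtype (Submodule.ker_subtype _)
  have hrk := rank_rel hyp hs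
  have hfinA : FiniteDimensional k (rel s Lf) :=
    Module.rank_lt_aleph0_iff.1 (lt_of_le_of_lt hrk (Cardinal.natCast_lt_aleph0))
  have hA : finrank k (rel s Lf) ≤ d * (d - 1) := by
    rw [← Module.finrank_eq_rank k (rel s Lf)] at hrk
    exact_mod_cast hrk
  let Ψ : (Fin d → rel s Lf) →ₗ[k] E := ∑ i, (LinearMap.proj i : (Fin d → E) →ₗ[k] E) ∘ₗ
    (rel s Lf).subtype ∘ₗ (LinearMap.proj i : (Fin d → rel s Lf) →ₗ[k] rel s Lf)
  have hΨ : ∀ f : Fin d → rel s Lf, Ψ f = ∑ i, (f i : Fin d → E) i := by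
    intro f
    simp only [Ψ, LinearMap.sum_apply, LinearMap.comp_apply, LinearMap.proj_apply,
      Submodule.subtype_apply]
  refine ⟨LinearMap.range Ψ, ?_, inferInstance, ?_, ?_⟩
  · rintro _ ⟨f, rfl⟩
    rw [hΨ]
    exact Submodule.sum_mem _ fun i _ => (f i).2.1 i
  · refine (LinearMap.finrank_range_le Ψ).trans ?_
    rw [Module.finrank_pi_fintype, Finset.sum_const, Finset.card_univ, Fintype.card_fin,
      smul_eq_mul]
    exact Nat.mul_le_mul_left _ hA
  · intro n C z hC hz h0 j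
    let u : Fin d → E := fun j => ∑ i, (Module.finBasis k S).repr ⟨C i, hC i⟩ j • z i
    have hu : u ∈ rel s Lf := by
      refine ⟨fun j => Submodule.sum_mem _ fun i _ => Submodule.smul_mem _ _ (hz i), ?_⟩
      have h1 : ∀ i, C i = ∑ j, (Module.finBasis k S).repr ⟨C i, hC i⟩ j • s j := by
        intro i
        have := congrArg (fun w : S => (w : E)) ((Module.finBasis k S).sum_repr ⟨C i, hC i⟩)
        simp only at this
        conv_lhs => rw [← this]
        push_cast
        rfl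
      rw [← h0]
      have h2 : ∀ i, C i * z i =
          ∑ j, s j * ((Module.finBasis k S).repr ⟨C i, hC i⟩ j • z i) := by
        intro i
        conv_lhs => rw [h1 i, Finset.sum_mul]
        refine Finset.sum_congr rfl fun j _ => ?_
        rw [smul_mul_assoc, mul_smul_comm]
      rw [Finset.sum_congr rfl (fun i _ => h2 i), Finset.sum_comm]
      refine Finset.sum_congr rfl fun j _ => ?_
      rw [← Finset.mul_sum]
    refine ⟨Pi.single j ⟨u, hu⟩, ?_⟩
    rw [hΨ, Finset.sum_eq_single j]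
    · rw [Pi.single_eq_same]
    · intro i _ hi
      rw [Pi.single_eq_of_ne hi]
      rfl
    · intro h
      exact absurd (Finset.mem_univ j) h

theorem prod_mem_pow (V : Submodule k E) {ι : Type*} (s : Finset ι) (f : ι → E)
    (h : ∀ i ∈ s, f i ∈ V) : ∏ i ∈ s, f i ∈ V ^ s.card := by
  classical
  induction s using Finset.induction_on with
  | empty => simp
  | insert a s ha ih =>
    rw [Finset.prod_insert ha, Finset.card_insert_of_notMem ha, pow_succ, mul_comm (f a)]
    exact Submodule.mul_mem_mul (ih fun i hi => h i (Finset.mem_insert_of_mem hi))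
      (h a (Finset.mem_insert_self a s))

theorem det_mem_pow (V : Submodule k E) {n : ℕ} (M : Matrix (Fin n) (Fin n) E)
    (h : ∀ i j, M i j ∈ V) : M.det ∈ V ^ n := by
  classical
  rw [Matrix.det_apply]
  refine Submodule.sum_mem _ fun σ _ => ?_
  have h1 := prod_mem_pow V Finset.univ (fun i => M (σ i) i) (fun i _ => h _ _)
  rw [Finset.card_univ, Fintype.card_fin] at h1
  rcases Int.units_eq_one_or (Equiv.Perm.sign σ) with h2 | h2
  · rw [h2, one_smul]
    exact h1
  · rw [h2]
    rw [Units.neg_smul, one_smul]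
    exact Submodule.neg_mem _ h1

variable [CharZero k] [CharZero E]

/-- Baker's theorem for the space `Λ`. -/
def BakerP (k : Type*) {E : Type*} [Field k] [Field E] [Algebra k E] [CharZero E]
    (Λ : Submodule ℚ E) : Prop :=
  ∀ (m : ℕ) (b : Fin m → E), (∀ i, b i ∈ Λ) → LinearIndependent ℚ b →
    ∀ (c₀ : k) (c : Fin m → k), c₀ • (1 : E) + ∑ i, c i • b i = 0 → c₀ = 0 ∧ ∀ i, c i = 0

theorem qsmul (q : ℚ) (z : E) : q • z = (algebraMap ℚ k q) • z := by
  rw [Rat.smul_def, Algebra.smul_def]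
  congr 1
  rw [eq_ratCast, map_ratCast]

/-- A functional. -/
theorem functional {Λ : Submodule ℚ E} (hB : BakerP k Λ) (Λ'' : Submodule ℚ E)
    (h : Λ'' ≤ Λ) [FiniteDimensional ℚ Λ''] (φ : Λ'' →ₗ[ℚ] ℚ) :
    ∃ Φ : E →ₗ[k] k, Φ 1 = 0 ∧ ∀ z : Λ'', Φ (z : E) = algebraMap ℚ k (φ z) := by
  classical
  let bb := Module.finBasis ℚ Λ''
  set m := finrank ℚ Λ''
  let v : Option (Fin m) → E := fun o => o.elim 1 (fun i => (bb i : E))
  have hv : LinearIndependent k v := by
    rw [Fintype.linearIndependent_iff]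
    intro g hg
    rw [Fintype.sum_option] at hg
    have h1 := hB m (fun i => (bb i : E)) (fun i => h (bb i).2)
      (bb.linearIndependent.map' Λ''.subtype (Submodule.ker_subtype _)) (g none)
      (fun i => g (some i)) hg
    rintro (_ | i)
    · exact h1.1
    · exact h1.2 i
  obtain ⟨Φ, hΦ⟩ : ∃ Φ : E →ₗ[k] k, ∀ o, Φ (v o) =
      o.elim (0 : k) (fun i => algebraMap ℚ k (φ (bb i))) := by
    obtain ⟨G, hG⟩ := LinearMap.exists_leftInverse_of_injective
      (Finsupp.linearCombination k v) (LinearMap.ker_eq_bot.2 hv)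
    refine ⟨Finsupp.linearCombination k
      (fun o : Option (Fin m) => o.elim (0 : k) (fun i => algebraMap ℚ k (φ (bb i)))) ∘ₗ G,
      fun o => ?_⟩
    have h1 := LinearMap.congr_fun hG (Finsupp.single o 1)
    rw [LinearMap.comp_apply, Finsupp.linearCombination_single, one_smul, LinearMap.id_apply] at h1
    rw [LinearMap.comp_apply, h1, Finsupp.linearCombination_single, one_smul]
  refine ⟨Φ, hΦ none, fun z => ?_⟩
  have h2 : (z : E) = ∑ i, (algebraMap ℚ k (bb.repr z i)) • (bb i : E) := by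
    have := congrArg (fun w : Λ'' => (w : E)) (bb.sum_repr z)
    rw [← this]
    push_cast
    refine Finset.sum_congr rfl fun i _ => ?_
    exact qsmul (k := k) _ _
  rw [h2, map_sum]
  have h3 : φ z = ∑ i, bb.repr z i * φ (bb i) := by
    conv_lhs => rw [← bb.sum_repr z]
    rw [map_sum]
    refine Finset.sum_congr rfl fun i _ => ?_
    rw [map_smul, smul_eq_mul]
  rw [h3, map_sum]
  refine Finset.sum_congr rfl fun i _ => ?_
  have h4 : Φ ((bb i : Λ'') : E) = algebraMap ℚ k (φ (bb i)) := hΦ (some i)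
  rw [map_smul, h4, map_mul, smul_eq_mul]

omit [CharZero k] in
/-- The rational envelope. -/
theorem envelope {Λ : Submodule ℚ E} {V' : Submodule k E} [FiniteDimensional k V']
    (hV' : V' ≤ Submodule.span k ({1} ∪ (Λ : Set E))) :
    ∃ Λ₁ : Submodule ℚ E, Λ₁ ≤ Λ ∧ FiniteDimensional ℚ Λ₁ ∧
      V' ≤ Submodule.span k ({1} ∪ (Λ₁ : Set E)) := by
  classical
  obtain ⟨G, hG⟩ := (Module.Finite.iff_fg.1 (inferInstance : Module.Finite k V'))
  have h1 : ∀ g ∈ G, ∃ T : Finset E, (T : Set E) ⊆ {1} ∪ (Λ : Set E) ∧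
      g ∈ Submodule.span k (T : Set E) := by
    intro g hg
    have h2 : g ∈ Submodule.span k ({1} ∪ (Λ : Set E)) := by
      apply hV'
      rw [← hG]
      exact Submodule.subset_span hg
    obtain ⟨T, hT, hgT⟩ := Submodule.mem_span_finite_of_mem_span h2
    exact ⟨T, hT, hgT⟩
  choose! T hT hgT using h1
  let T' : Finset E := G.biUnion T
  let T'' : Set E := {t | t ∈ T' ∧ t ∈ Λ}
  have hT''fin : T''.Finite := T'.finite_toSet.subset fun t ht => ht.1
  refine ⟨Submodule.span ℚ T'', Submodule.span_le.2 fun t ht => ht.2,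
    FiniteDimensional.span_of_finite ℚ hT''fin, ?_⟩
  rw [← hG, Submodule.span_le]
  intro g hg
  refine Submodule.span_mono ?_ (hgT g hg)
  intro t ht
  rcases hT g hg ht with h3 | h3
  · exact Or.inl h3
  · exact Or.inr (Submodule.subset_span ⟨Finset.mem_biUnion.2 ⟨g, hg, ht⟩, h3⟩)

/-- **The unknown column lies in a fixed rational space.** -/
theorem last {Λ : Submodule ℚ E} (hyp : Hyp (Submodule.span k ({1} ∪ (Λ : Set E))))
    (hB : BakerP k Λ) (S : Submodule k E) [FiniteDimensional k S] (Λ₀ : Submodule ℚ E)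
    (hΛ₀ : Λ₀ ≤ Λ) [FiniteDimensional ℚ Λ₀] :
    ∃ Λ' : Submodule ℚ E, Λ₀ ≤ Λ' ∧ Λ' ≤ Λ ∧ FiniteDimensional ℚ Λ' ∧
      ∀ (n : ℕ) (C z : Fin n → E), (∀ i, C i ∈ S) → (∀ i, z i ∈ Λ) → ∑ i, C i * z i = 0 →
        (∀ w : Fin n → ℚ, ∑ i, w i • C i = 0 → w = 0) → ∀ i, z i ∈ Λ' := by
  classical
  obtain ⟨V', h1, h2, -, h4⟩ := lin_rel hyp S
  obtain ⟨Λ₁, h5, h6, h7⟩ := envelope (k := k) h1
  refine ⟨Λ₀ ⊔ Λ₁, le_sup_left, sup_le hΛ₀ h5, inferInstance, ?_⟩
  intro n C z hC hz h0 hw i₀
  by_contra hcon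
  -- a functional which vanishes on `Λ₀ ⊔ Λ₁` and not on `z i₀`
  set Λ'' : Submodule ℚ E := (Λ₀ ⊔ Λ₁) ⊔ Submodule.span ℚ (Set.range z) with hΛ''
  have hle : Λ'' ≤ Λ := by
    refine sup_le (sup_le hΛ₀ h5) ?_
    rw [Submodule.span_le]
    rintro _ ⟨i, rfl⟩
    exact hz i
  have hfin : FiniteDimensional ℚ (Submodule.span ℚ (Set.range z)) :=
    FiniteDimensional.span_of_finite ℚ (Set.finite_range z)
  have hfin2 : FiniteDimensional ℚ Λ'' := by
    rw [hΛ'']
    infer_instance
  have hzm : ∀ i, z i ∈ Λ'' := fun i => Submodule.mem_sup_right (Submodule.subset_span ⟨i, rfl⟩)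
  let U : Submodule ℚ Λ'' := (Λ₀ ⊔ Λ₁).comap Λ''.subtype
  have hzU : (⟨z i₀, hzm i₀⟩ : Λ'') ∉ U := fun h => hcon h
  obtain ⟨φ, hφ, hφU⟩ := Submodule.exists_dual_map_eq_bot_of_notMem hzU inferInstance
  obtain ⟨Φ, hΦ1, hΦ⟩ := functional hB Λ'' hle φ
  have hφ0 : ∀ x : Λ'', x ∈ U → φ x = 0 := by
    intro x hx
    have : φ x ∈ U.map φ := ⟨x, hx, rfl⟩
    rw [hφU, Submodule.mem_bot] at this
    exact this
  -- `Φ` vanishes on `V'`
  have hΦV : ∀ x ∈ V', Φ x = 0 := by
    intro x hx
    have h8 : Submodule.span k ({1} ∪ (Λ₁ : Set E)) ≤ LinearMap.ker Φ := by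
      rw [Submodule.span_le]
      rintro y (hy | hy)
      · rw [Set.mem_singleton_iff] at hy
        rw [hy]
        exact hΦ1
      · have hy' : y ∈ Λ'' := Submodule.mem_sup_left (Submodule.mem_sup_right hy)
        show Φ y = 0
        rw [hΦ ⟨y, hy'⟩, hφ0 ⟨y, hy'⟩ (Submodule.mem_sup_right hy), map_zero]
    exact h8 (h7 hx)
  let w : Fin n → ℚ := fun i => φ ⟨z i, hzm i⟩
  have hw0 : w = 0 := by
    apply hw
    have h9 : ∀ j, ∑ i, (Module.finBasis k S).repr ⟨C i, hC i⟩ j * algebraMap ℚ k (w i) = 0 := by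
      intro j
      have h10 := hΦV _ (h4 n C z hC (fun i => Submodule.subset_span (Or.inr (hz i))) h0 j)
      rw [map_sum] at h10
      rw [← h10]
      refine Finset.sum_congr rfl fun i _ => ?_
      rw [map_smul, hΦ ⟨z i, hzm i⟩, smul_eq_mul]
    have h11 : ∀ i, C i = ∑ j, (Module.finBasis k S).repr ⟨C i, hC i⟩ j •
        (Module.finBasis k S j : E) := by
      intro i
      have := congrArg (fun w : S => (w : E)) ((Module.finBasis k S).sum_repr ⟨C i, hC i⟩)
      simp only at this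
      conv_lhs => rw [← this]
      push_cast
      rfl
    have h12 : ∀ i, w i • C i = ∑ j, ((Module.finBasis k S).repr ⟨C i, hC i⟩ j *
        algebraMap ℚ k (w i)) • (Module.finBasis k S j : E) := by
      intro i
      rw [qsmul (k := k)]
      conv_lhs => rw [h11 i, Finset.smul_sum]
      refine Finset.sum_congr rfl fun j _ => ?_
      rw [smul_smul, mul_comm]
    rw [Finset.sum_congr rfl (fun i _ => h12 i), Finset.sum_comm]
    refine Finset.sum_eq_zero fun j _ => ?_
    rw [← Finset.sum_smul, h9 j, zero_smul]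
  exact hφ (congrFun hw0 i₀)

end Pool.Agent.Q244.OC
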