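import Pool.Agent.Q244.OC.Last

/-!
# Singular matrices with all columns but one in a given space: matrices
-/

set_option autoImplicit false

namespace Pool.Agent.Q244.OC

open Module Finset
open Pool.Agent.W254.PA (Hyp)

/-- `M` has entries in `S`, it is singular, and there is no rational zero. -/
def Viol {E : Type*} [Field E] [CharZero E] (S : Set E) {n : ℕ} (M : Matrix (Fin n) (Fin n) E) :
    Prop :=
  (∀ i j, M i j ∈ S) ∧ M.det = 0 ∧
    ∀ w v : Fin n → ℚ, w ≠ 0 → v ≠ 0 → ∑ i, ∑ j, (w i : E) * M i j * (v j : E) ≠ 0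

variable {E : Type*} [Field E] [CharZero E]

theorem Viol.tr {S : Set E} {n : ℕ} {M : Matrix (Fin n) (Fin n) E} (h : Viol S M) :
    Viol S M.transpose := by
  refine ⟨fun i j => h.1 j i, by rw [Matrix.det_transpose]; exact h.2.1, fun w v hw hv h0 => ?_⟩
  apply h.2.2 v w hv hw
  rw [Finset.sum_comm, ← h0]
  refine Finset.sum_congr rfl fun i _ => Finset.sum_congr rfl fun j _ => ?_
  rw [Matrix.transpose_apply]
  ring

/-- The smaller matrix. -/
theorem smaller {Λ₀ : Submodule ℚ E} {S : Set E} {n : ℕ}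
    {M : Matrix (Fin (n + 1)) (Fin (n + 1)) E} (h : Viol S M) (j₀ : Fin (n + 1))
    (hM : ∀ i j, j ≠ j₀ → M i j ∈ Λ₀) (w : Fin (n + 1) → ℚ) (hw : w ≠ 0)
    (h0 : ∑ i, (w i : E) * ((-1) ^ ((i : ℕ) + (j₀ : ℕ)) *
      (M.submatrix i.succAbove j₀.succAbove).det) = 0) :
    ∃ N : Matrix (Fin n) (Fin n) E, Viol (Λ₀ : Set E) N := by
  classical
  obtain ⟨i₁, hi₁⟩ : ∃ i, w i ≠ 0 := Function.ne_iff.1 hw
  have hi₁' : (w i₁ : E) ≠ 0 := by exact_mod_cast hi₁
  let N : Matrix (Fin n) (Fin n) E := fun r j =>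
    M (i₁.succAbove r) (j₀.succAbove j) -
      ((w (i₁.succAbove r) / w i₁ : ℚ) : E) * M i₁ (j₀.succAbove j)
  refine ⟨N, ?_, ?_, ?_⟩
  · intro r j
    show M (i₁.succAbove r) (j₀.succAbove j) -
      ((w (i₁.succAbove r) / w i₁ : ℚ) : E) * M i₁ (j₀.succAbove j) ∈ Λ₀
    refine Submodule.sub_mem _ (hM _ _ (Fin.succAbove_ne _ _)) ?_
    have := Λ₀.smul_mem (w (i₁.succAbove r) / w i₁) (hM i₁ (j₀.succAbove j) (Fin.succAbove_ne _ _))
    rwa [Rat.smul_def] at this
  · -- the determinant
    let A : Matrix (Fin (n + 1)) (Fin (n + 1)) E := M.updateCol j₀ (fun i => (w i : E))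
    have hA : A.det = 0 := by
      rw [Matrix.det_succ_column A j₀, ← h0]
      refine Finset.sum_congr rfl fun i _ => ?_
      have h1 : A.submatrix i.succAbove j₀.succAbove = M.submatrix i.succAbove j₀.succAbove := by
        ext a b
        simp only [A, Matrix.submatrix_apply]
        rw [Matrix.updateCol_ne (Fin.succAbove_ne _ _)]
      have h2 : A i j₀ = (w i : E) := by
        simp only [A, Matrix.updateCol_self]
      rw [h1, h2]
      ring
    let c : Fin (n + 1) → E := fun i => if i = i₁ then 0 else -((w i / w i₁ : ℚ) : E)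
    let B : Matrix (Fin (n + 1)) (Fin (n + 1)) E := fun i j => A i j + c i * A i₁ j
    have hB : B.det = A.det :=
      Matrix.det_eq_of_forall_row_eq_smul_add_const c i₁ (by simp [c]) (fun i j => rfl)
    have hBcol : ∀ i, i ≠ i₁ → B i j₀ = 0 := by
      intro i hi
      have h2 : ∀ i, A i j₀ = (w i : E) := fun i => by
        simp only [A, Matrix.updateCol_self]
      simp only [B, c, if_neg hi, h2]
      push_cast
      field_simp
      ring
    have hBdet : B.det = (-1) ^ ((i₁ : ℕ) + (j₀ : ℕ)) * B i₁ j₀ *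
        (B.submatrix i₁.succAbove j₀.succAbove).det := by
      rw [Matrix.det_succ_column B j₀, Finset.sum_eq_single i₁]
      · intro i _ hi
        rw [hBcol i hi]
        ring
      · intro h
        exact absurd (Finset.mem_univ _) h
    have hBN : B.submatrix i₁.succAbove j₀.succAbove = N := by
      ext r j
      have hA1 : ∀ i, A i (j₀.succAbove j) = M i (j₀.succAbove j) := by
        intro i
        simp only [A]
        rw [Matrix.updateCol_ne (Fin.succAbove_ne _ _)]
      have hc1 : c (i₁.succAbove r) = -((w (i₁.succAbove r) / w i₁ : ℚ) : E) :=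
        if_neg (Fin.succAbove_ne i₁ r)
      show A (i₁.succAbove r) (j₀.succAbove j) + c (i₁.succAbove r) * A i₁ (j₀.succAbove j) =
        M (i₁.succAbove r) (j₀.succAbove j) -
          ((w (i₁.succAbove r) / w i₁ : ℚ) : E) * M i₁ (j₀.succAbove j)
      rw [hA1, hA1, hc1]
      ring
    have hBi : B i₁ j₀ = (w i₁ : E) := by
      simp only [B, A, c, if_pos, Matrix.updateCol_self]
      ring
    rw [hBN, hBi, hB, hA] at hBdet
    have h3 : ((-1 : E)) ^ ((i₁ : ℕ) + (j₀ : ℕ)) ≠ 0 := pow_ne_zero _ (by simp)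
    exact (mul_eq_zero.1 hBdet.symm).resolve_left (mul_ne_zero h3 hi₁')
  · intro w' v' hw' hv' hz
    let W : Fin (n + 1) → ℚ := i₁.insertNth (-∑ r, w' r * (w (i₁.succAbove r) / w i₁)) w'
    let V : Fin (n + 1) → ℚ := j₀.insertNth 0 v'
    have hW : W ≠ 0 := by
      intro h1
      apply hw'
      funext r
      have := congrFun h1 (i₁.succAbove r)
      simp only [W, Fin.insertNth_apply_succAbove] at this
      exact this
    have hV : V ≠ 0 := by
      intro h1
      apply hv'
      funext r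
      have := congrFun h1 (j₀.succAbove r)
      simp only [V, Fin.insertNth_apply_succAbove] at this
      exact this
    apply h.2.2 W V hW hV
    have h2 : ∀ i, ∑ j, (W i : E) * M i j * (V j : E) =
        ∑ j : Fin n, (W i : E) * M i (j₀.succAbove j) * (v' j : E) := by
      intro i
      rw [Fin.sum_univ_succAbove _ j₀]
      simp only [V, Fin.insertNth_apply_same, Fin.insertNth_apply_succAbove]
      push_cast
      ring
    rw [Finset.sum_congr rfl (fun i _ => h2 i), Fin.sum_univ_succAbove _ i₁]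
    simp only [W, Fin.insertNth_apply_same, Fin.insertNth_apply_succAbove]
    rw [← hz]
    have h3 : ∀ r j, (w' r : E) * N r j * (v' j : E) =
        (w' r : E) * M (i₁.succAbove r) (j₀.succAbove j) * (v' j : E) -
        ((w' r : E) * ((w (i₁.succAbove r) / w i₁ : ℚ) : E)) *
          (M i₁ (j₀.succAbove j) * (v' j : E)) := by
      intro r j
      simp only [N]
      ring
    simp only [h3, Finset.sum_sub_distrib]
    rw [← Finset.sum_mul_sum]
    have h4 : ∑ j : Fin n, ((-∑ r, w' r * (w (i₁.succAbove r) / w i₁) : ℚ) : E) *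
        M i₁ (j₀.succAbove j) * (v' j : E) =
        -((∑ r, (w' r : E) * ((w (i₁.succAbove r) / w i₁ : ℚ) : E)) *
          ∑ j, M i₁ (j₀.succAbove j) * (v' j : E)) := by
      have h5 : ((-∑ r, w' r * (w (i₁.succAbove r) / w i₁) : ℚ) : E) =
          -(∑ r, (w' r : E) * ((w (i₁.succAbove r) / w i₁ : ℚ) : E)) := by
        push_cast
        rfl
      rw [h5]
      generalize (∑ r, (w' r : E) * ((w (i₁.succAbove r) / w i₁ : ℚ) : E)) = t
      rw [Finset.mul_sum, ← Finset.sum_neg_distrib]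
      refine Finset.sum_congr rfl fun j _ => ?_
      ring
    rw [h4]
    ring

/-- All columns or all rows but one have their entries in `Λ₀`. -/
def AllButOne {E : Type*} [Field E] [CharZero E] (Λ₀ : Submodule ℚ E) {n : ℕ}
    (M : Matrix (Fin n) (Fin n) E) : Prop :=
  (∃ j₀, ∀ i j, j ≠ j₀ → M i j ∈ Λ₀) ∨ ∃ i₀, ∀ i j, i ≠ i₀ → M i j ∈ Λ₀

variable {k : Type*} [Field k] [Algebra k E] [CharZero k]

theorem main {Λ : Submodule ℚ E} (hyp : Hyp (Submodule.span k ({1} ∪ (Λ : Set E))))
    (hB : BakerP k Λ) (n : ℕ) (Λ₀ : Submodule ℚ E) (hΛ₀ : Λ₀ ≤ Λ) [FiniteDimensional ℚ Λ₀] :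
    ∃ Λ' : Submodule ℚ E, Λ₀ ≤ Λ' ∧ Λ' ≤ Λ ∧ FiniteDimensional ℚ Λ' ∧
      ∀ M : Matrix (Fin (n + 1)) (Fin (n + 1)) E, Viol (Λ : Set E) M → AllButOne Λ₀ M →
        (∀ i j, M i j ∈ Λ') ∨ ∃ N : Matrix (Fin n) (Fin n) E, Viol (Λ₀ : Set E) N := by
  classical
  let V : Submodule k E := Submodule.span k (Λ₀ : Set E)
  have hVfin : V.FG := by
    obtain ⟨G, hG⟩ := (Module.Finite.iff_fg.1 (inferInstance : Module.Finite ℚ Λ₀))
    refine ⟨G, le_antisymm (Submodule.span_mono ?_) ?_⟩
    · intro g hg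
      rw [← hG]
      exact Submodule.subset_span hg
    · rw [Submodule.span_le]
      intro x hx
      rw [SetLike.mem_coe, ← hG] at hx
      refine Submodule.span_induction (p := fun x _ => x ∈ Submodule.span k (G : Set E))
        (fun y hy => Submodule.subset_span hy) (Submodule.zero_mem _)
        (fun a b _ _ ha hb => Submodule.add_mem _ ha hb) ?_ hx
      intro q y _ hy
      rw [qsmul (k := k)]
      exact Submodule.smul_mem _ _ hy
  have hSfin : FiniteDimensional k (V ^ n : Submodule k E) :=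
    Module.Finite.iff_fg.2 (hVfin.pow n)
  obtain ⟨Λ', h1, h2, h3, h4⟩ := last hyp hB (V ^ n) Λ₀ hΛ₀
  have key : ∀ M : Matrix (Fin (n + 1)) (Fin (n + 1)) E, Viol (Λ : Set E) M →
      (∃ j₀, ∀ i j, j ≠ j₀ → M i j ∈ Λ₀) →
        (∀ i j, M i j ∈ Λ') ∨ ∃ N : Matrix (Fin n) (Fin n) E, Viol (Λ₀ : Set E) N := by
    rintro M hM ⟨j₀, hj₀⟩
    by_cases hC : ∀ w : Fin (n + 1) → ℚ, ∑ i, w i • ((-1 : E) ^ ((i : ℕ) + (j₀ : ℕ)) *
      (M.submatrix i.succAbove j₀.succAbove).det) = 0 → w = 0
    · left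
      have h5 := h4 (n + 1) (fun i => (-1 : E) ^ ((i : ℕ) + (j₀ : ℕ)) *
        (M.submatrix i.succAbove j₀.succAbove).det) (fun i => M i j₀) ?_ (fun i => hM.1 i j₀) ?_ hC
      · intro i j
        by_cases hj : j = j₀
        · subst hj
          exact h5 i
        · exact h1 (hj₀ i j hj)
      · intro i
        have h6 : (M.submatrix i.succAbove j₀.succAbove).det ∈ V ^ n :=
          det_mem_pow V _ (fun a b => Submodule.subset_span (hj₀ _ _ (Fin.succAbove_ne _ _)))
        rcases neg_one_pow_eq_or E ((i : ℕ) + (j₀ : ℕ)) with h7 | h7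
        · rw [h7, one_mul]
          exact h6
        · rw [h7, neg_one_mul]
          exact Submodule.neg_mem _ h6
      · rw [← hM.2.1, Matrix.det_succ_column M j₀]
        refine Finset.sum_congr rfl fun i _ => ?_
        ring
    · right
      push Not at hC
      obtain ⟨w, hw0, hw⟩ := hC
      refine smaller hM j₀ hj₀ w hw ?_
      rw [← hw0]
      refine Finset.sum_congr rfl fun i _ => ?_
      rw [Rat.smul_def]
  refine ⟨Λ', h1, h2, h3, ?_⟩
  rintro M hM (hc | ⟨i₀, hi₀⟩)
  · exact key M hM hc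
  · rcases key M.transpose hM.tr ⟨i₀, fun i j hj => hi₀ j i hj⟩ with h5 | h5
    · exact Or.inl fun i j => h5 j i
    · exact Or.inr h5

end Pool.Agent.Q244.OC
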